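import Pool.Agent.L5helper93.CE.Main

/-!
# MP_0a0660_gt: metrics with a negative conformal Steklov eigenvalue are not always connected

Let `M = [0, 1] × T²`. There are smooth Riemannian metrics `g₀` and `g₁` on `M` such that the
conformal Steklov problem (S) is defined for both of them and has a negative eigenvalue, but every
curve of metrics from `g₀` to `g₁`, continuous in the `C^∞` topology, passes through a metric for
which `0` is a Dirichlet eigenvalue of the conformal Laplacian, so that problem (S) is not defined.
Hence `g₀` and `g₁` lie in different path components of the set `{g : N_S(g) ≥ 1}`, and the answer to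
Q1 is negative for `X = S`, `k = 1`.

The metrics are `dx² + a² dy² + b² (dz - x dy)²` with `b = 4 a` and with `b = 16 a`, `a` small. Their
scalar curvature is `-b² / (2 a²)`, the boundary is minimal, and with `m = b / (4 a)` the functions
`cos (m (x - 1/2))` and `sin (m (x - 1/2))` of `x` are Steklov eigenfunctions with the eigenvalues
`- m tan (m / 2)` and `m cot (m / 2)`. For `m = 1` the Dirichlet form is positive, and for `m = 4` it
is negative at `sin (π x)`. At the first metric of the curve after which the Dirichlet form takes
negative values, a minimizing sequence converges (Rellich) to a function in `H¹₀(M)`, not `0`, in the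
kernel of the Dirichlet form.

All definitions are in `Pool.Agent.L5helper93.CE.Defs`. Metrics on `M` and smooth functions on `M`
are given by smooth functions on `ℝ × T²`; only their restrictions to `M` matter. The Dirichlet
problem is understood in the weak sense, in `H¹₀(M)`.
-/

set_option autoImplicit false

namespace Pool.Agent.Results.MP_0a0660_gt.SteklovComponents

open Pool.Agent.L5helper93.CE

/-- `G` is a curve from `g₀` to `g₁`: on `M`, `G 0` is `g₀` and `G 1` is `g₁`. -/
def Joins (G : ℝ → Metric) (g₀ g₁ : Metric) : Prop :=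
  IsCurve G ∧ (∀ x ∈ Slab, (G 0).g x = g₀.g x) ∧ ∀ x ∈ Slab, (G 1).g x = g₁.g x

/-- There are metrics `g₀`, `g₁` on `[0, 1] × T²` with `N_S ≥ 1` such that every curve of metrics
from `g₀` to `g₁` passes through a metric for which `0` is a Dirichlet eigenvalue; in particular there
is no curve from `g₀` to `g₁` in the set of the metrics with `N_S ≥ 1`. -/
theorem result : ∃ g₀ g₁ : Metric, g₀.NS 1 ∧ g₁.NS 1 ∧
    (∀ G : ℝ → Metric, Joins G g₀ g₁ → ∃ t ∈ Set.Icc (0 : ℝ) 1, (G t).ZeroDirichlet) ∧
    ¬ ∃ G : ℝ → Metric, Joins G g₀ g₁ ∧ ∀ t ∈ Set.Icc (0 : ℝ) 1, (G t).NS 1 := by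
  obtain ⟨g₀, g₁, h0, h1, h⟩ := main
  refine ⟨g₀, g₁, h0, h1, fun G hG => h G hG.1 hG.2.1 hG.2.2, ?_⟩
  rintro ⟨G, hG, hN⟩
  obtain ⟨t, ht, hz⟩ := h G hG.1 hG.2.1 hG.2.2
  exact (hN t ht).1 hz

end Pool.Agent.Results.MP_0a0660_gt.SteklovComponents
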